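import Mathlib

/-!
Totally symmetric distributive ternary structures (case E2 of MP_52f71e_al, notes 6812, 6839 of
helper76): `t p q r = f(p,q,r)` is totally symmetric, `t p q` is an element of `G` and
`g (t p q) g⁻¹ = t (g p) (g q)` for all `g` in `G`.
-/

set_option autoImplicit false

namespace ETern

open Equiv

variable {Q : Type*}

/-- the data -/
structure ET (G : Subgroup (Perm Q)) (t : Q → Q → Perm Q) : Prop where
  mem : ∀ p q, t p q ∈ G
  equi : ∀ g ∈ G, ∀ p q, g * t p q * g⁻¹ = t (g p) (g q)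
  symm : ∀ p q, t p q = t q p
  comm : ∀ p q r, t p q r = t p r q
  diag : ∀ p, t p p = 1
  swap : ∀ p q, t p q p = q

/-- the commutator `u_pqr = [t_pq, t_pr]` -/
def uu (t : Q → Q → Perm Q) (p q r : Q) : Perm Q := t p q * t p r * (t p q)⁻¹ * (t p r)⁻¹

/-- the chain `r_n = C^n r`, `C = t_pq` -/
def ch (t : Q → Q → Perm Q) (p q r : Q) (n : ℕ) : Q := ((t p q) ^ n) r

/-- `u_n = u_(p,q,r_n)` -/
def un (t : Q → Q → Perm Q) (p q r : Q) (n : ℕ) : Perm Q := uu t p q (ch t p q r n)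

/-- `u_0 u_1 ... u_(n-1)` -/
def pr (t : Q → Q → Perm Q) (p q r : Q) : ℕ → Perm Q
  | 0 => 1
  | n + 1 => pr t p q r n * un t p q r n

end ETern
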