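import Pool.Agent.H76.ET.Def

/-!
Basic rules (note 6839 (0)).
-/

set_option autoImplicit false

namespace ETern

open Equiv

variable {Q : Type*} {G : Subgroup (Perm Q)} {t : Q → Q → Perm Q}

namespace ET

/-- GP: an element of `G` which preserves `{p, q}` commutes with `t p q` -/
theorem gp (h : ET G t) {g : Perm Q} (hg : g ∈ G) {p q : Q}
    (hpq : (g p = p ∧ g q = q) ∨ (g p = q ∧ g q = p)) : g * t p q = t p q * g := by
  have h1 := h.equi g hg p q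
  rcases hpq with ⟨h2, h3⟩ | ⟨h2, h3⟩
  · rw [h2, h3] at h1
    exact mul_inv_eq_iff_eq_mul.1 h1
  · rw [h2, h3, h.symm q p] at h1
    exact mul_inv_eq_iff_eq_mul.1 h1

theorem swap' (h : ET G t) (p q : Q) : t p q q = p := by
  rw [h.symm]; exact h.swap q p

/-- `B A B⁻¹ = C A C⁻¹ = t p s` and so on -/
theorem BAB (h : ET G t) (p q r : Q) :
    t p r * t q r * (t p r)⁻¹ = t p (t p q r) := by
  rw [h.equi _ (h.mem p r), h.swap', h.comm p r q, h.symm]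

theorem CAC (h : ET G t) (p q r : Q) :
    t p q * t q r * (t p q)⁻¹ = t p (t p q r) := by
  rw [h.equi _ (h.mem p q), h.swap']

theorem alg1 {M : Type*} [Group M] {A B C : M} (h1 : B * A * B⁻¹ = C * A * C⁻¹)
    (h2 : A * B * A⁻¹ = C * B * C⁻¹) (h3 : A * C * A⁻¹ = B * C * B⁻¹) :
    (C * B * C⁻¹ * B⁻¹) * (C * B * C⁻¹ * B⁻¹) = 1 ∧
    C * B * C⁻¹ * B⁻¹ = C * A * C⁻¹ * A⁻¹ ∧
    C * B * C⁻¹ * B⁻¹ = B * C * B⁻¹ * C⁻¹ ∧
    C * B * C⁻¹ * B⁻¹ = A * B * A⁻¹ * B⁻¹ ∧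
    C * B * C⁻¹ * B⁻¹ = B * A * B⁻¹ * A⁻¹ ∧
    C * B * C⁻¹ * B⁻¹ = A * C * A⁻¹ * C⁻¹ := by
  -- `[C,B] = [A,B]`, `[A,C] = [B,C]`, `[B,A] = [C,A]`
  have e1 : C * B * C⁻¹ * B⁻¹ = A * B * A⁻¹ * B⁻¹ := by rw [h2]
  have e2 : A * C * A⁻¹ * C⁻¹ = B * C * B⁻¹ * C⁻¹ := by rw [h3]
  have e3 : B * A * B⁻¹ * A⁻¹ = C * A * C⁻¹ * A⁻¹ := by rw [h1]
  have i1 : (C * B * C⁻¹ * B⁻¹)⁻¹ = B * C * B⁻¹ * C⁻¹ := by group
  have i2 : (A * B * A⁻¹ * B⁻¹)⁻¹ = B * A * B⁻¹ * A⁻¹ := by group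
  have i3 : (A * C * A⁻¹ * C⁻¹)⁻¹ = C * A * C⁻¹ * A⁻¹ := by group
  have e4 : B * A * B⁻¹ * A⁻¹ = C * B * C⁻¹ * B⁻¹ := by
    rw [e3, ← i3, e2, ← i1, inv_inv]
  have e5 : (C * B * C⁻¹ * B⁻¹)⁻¹ = C * B * C⁻¹ * B⁻¹ := by
    calc (C * B * C⁻¹ * B⁻¹)⁻¹ = (A * B * A⁻¹ * B⁻¹)⁻¹ := by rw [e1]
      _ = C * B * C⁻¹ * B⁻¹ := by rw [i2, e4]
  have e6 : C * B * C⁻¹ * B⁻¹ = B * C * B⁻¹ * C⁻¹ := by rw [← i1, e5]
  refine ⟨?_, ?_, e6, e1, e4.symm, ?_⟩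
  · calc (C * B * C⁻¹ * B⁻¹) * (C * B * C⁻¹ * B⁻¹)
        = (C * B * C⁻¹ * B⁻¹) * (C * B * C⁻¹ * B⁻¹)⁻¹ := by rw [e5]
      _ = 1 := mul_inv_cancel _
  · rw [← e3, e4]
  · rw [e2, ← e6]

theorem trip (h : ET G t) (p q r : Q) :
    uu t p q r * uu t p q r = 1 ∧
    uu t p q r = t p q * t q r * (t p q)⁻¹ * (t q r)⁻¹ ∧
    uu t p q r = t p r * t p q * (t p r)⁻¹ * (t p q)⁻¹ ∧
    uu t p q r = t q r * t p r * (t q r)⁻¹ * (t p r)⁻¹ ∧
    uu t p q r = t p r * t q r * (t p r)⁻¹ * (t q r)⁻¹ ∧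
    uu t p q r = t q r * t p q * (t q r)⁻¹ * (t p q)⁻¹ := by
  have h1 : t p r * t q r * (t p r)⁻¹ = t p q * t q r * (t p q)⁻¹ := by
    rw [h.BAB, h.CAC]
  have h2 : t q r * t p r * (t q r)⁻¹ = t p q * t p r * (t p q)⁻¹ := by
    have := h.BAB q p r
    rw [this, h.symm p q, h.CAC q p r]
  have h3 : t q r * t p q * (t q r)⁻¹ = t p r * t p q * (t p r)⁻¹ := by
    have e1 := h.BAB r p q
    have e2 := h.CAC r p q
    rw [h.symm r q] at e1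
    rw [e1, h.symm p r, e2]
  exact alg1 h1 h2 h3

/-- `u_pqr` is in `G`, an involution or 1, totally symmetric, equivariant -/
theorem uu_all (h : ET G t) (p q r : Q) :
    uu t p q r ∈ G ∧ uu t p q r * uu t p q r = 1 ∧ uu t p q r = uu t q p r ∧
    uu t p q r = uu t p r q ∧ ∀ g ∈ G, g * uu t p q r * g⁻¹ = uu t (g p) (g q) (g r) := by
  obtain ⟨t1, t2, t3, t4, t5, t6⟩ := h.trip p q r
  refine ⟨?_, t1, ?_, t3, ?_⟩
  · exact G.mul_mem (G.mul_mem (G.mul_mem (h.mem _ _) (h.mem _ _)) (G.inv_mem (h.mem _ _)))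
      (G.inv_mem (h.mem _ _))
  · rw [t2]; unfold uu; rw [h.symm q p]
  · intro g hg
    unfold uu
    rw [← h.equi g hg p q, ← h.equi g hg p r]
    group

/-- apex rule: `t_(p, f(p,q,r)) = u_pqr t_qr` -/
theorem apex (h : ET G t) (p q r : Q) : t p (t p q r) = uu t p q r * t q r := by
  obtain ⟨-, t2, -⟩ := h.trip p q r
  rw [t2, ← h.CAC p q r]; group

/-- `t_pq t_pr t_pq⁻¹ = u_pqr t_pr` -/
theorem conj_t (h : ET G t) (p q r : Q) :
    t p q * t p r * (t p q)⁻¹ = uu t p q r * t p r := by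
  unfold uu; group

/-- apex rule: `t_(r, f(p,q,r)) = u_pqr t_pq` -/
theorem apex' (h : ET G t) (p q r : Q) : t r (t p q r) = uu t p q r * t p q := by
  obtain ⟨-, -, t3, -⟩ := h.trip p q r
  have e1 := h.CAC r p q
  -- `t r (t r p q) = t r p * t p q * (t r p)⁻¹`
  have e2 : t r p q = t p q r := by rw [h.symm r p, h.comm p r q]
  rw [e2] at e1
  rw [← e1, t3, h.symm r p]; group

/-- `u_pqr` fixes `f(p,q,r)` and swaps `r` and `t_pq (t_pq r)` -/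
theorem uu_pts (h : ET G t) (p q r : Q) :
    uu t p q r (t p q r) = t p q r ∧ uu t p q r r = t p q (t p q r) ∧
    uu t p q r (t p q (t p q r)) = r := by
  have h1 := h.apex' p q r
  have h2 : uu t p q r (t p q r) = t p q r := by
    have := congrArg (fun g : Perm Q => g r) h1
    simp only [Perm.mul_apply] at this
    rw [h.swap] at this
    exact this.symm
  have h3 : uu t p q r (t p q (t p q r)) = r := by
    have := congrArg (fun g : Perm Q => g (t p q r)) h1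
    simp only [Perm.mul_apply] at this
    rw [h.swap'] at this
    exact this.symm
  refine ⟨h2, ?_, h3⟩
  have h4 := (h.uu_all p q r).2.1
  have h5 : uu t p q r (uu t p q r (t p q (t p q r))) = t p q (t p q r) := by
    rw [← Perm.mul_apply, h4]; rfl
  rw [h3] at h5
  exact h5

end ET

end ETern
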