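import Pool.Agent.H76.ET.Def
import Pool.Agent.H17.E2.Aff

/-!
# The linear case (Lin.lean)

With a base point `e` the translations `L x = t e x` form the structure `ALoop.AE` of helper17, and
`ALoop.AE.affine` gives associativity, so all `t p q` commute.
-/

set_option autoImplicit false
namespace ETern
open Equiv
variable {Q : Type*} {G : Subgroup (Perm Q)} {t : Q → Q → Perm Q}
namespace ET

/-- `t p q` in terms of the translations at `e` -/
theorem t_eq_base (h : ET G t) (e p q : Q) :
    t p q = t e p * t e ((t e p)⁻¹ q) * (t e p)⁻¹ := by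
  have h1 := h.equi (t e p) (h.mem e p) e ((t e p)⁻¹ q)
  rw [h.swap] at h1
  have h2 : t e p ((t e p)⁻¹ q) = q := (t e p).apply_symm_apply q
  rw [h2] at h1
  exact h1.symm

/-- the structure `AE` of helper17 -/
theorem toAE (h : ET G t) (gen : G = Subgroup.closure {g | ∃ p q, g = t p q})
    (prim : ∀ r : Q → Q → Prop, Equivalence r → (∀ g ∈ G, ∀ a b, r a b → r (g a) (g b)) →
      (∀ a b, r a b → a = b) ∨ (∀ a b, r a b)) (e : Q) : ALoop.AE G (t e) e where
  memL := h.mem e
  Le := h.swap e
  sq := by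
    intro x
    rw [h.symm e x, h.swap]
  com := h.comm e
  equi := by
    intro g hg hge x
    rw [h.equi g hg, hge]
  gen := by
    apply le_antisymm
    · rw [gen, Subgroup.closure_le]
      rintro g ⟨p, q, rfl⟩
      rw [h.t_eq_base e p q]
      have hm : ∀ x, t e x ∈ Subgroup.closure (Set.range (t e)) :=
        fun x => Subgroup.subset_closure ⟨x, rfl⟩
      exact Subgroup.mul_mem _ (Subgroup.mul_mem _ (hm _) (hm _)) (Subgroup.inv_mem _ (hm _))
    · rw [Subgroup.closure_le]
      rintro g ⟨x, rfl⟩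
      exact h.mem e x
  prim := prim

/-- the linear case (helper24 6743, helper3 6751): if `G` is generated by the `t p q`, is primitive and
has an abelian normal subgroup `≠ 1` then `Q` has at most two elements or all `t p q` commute -/
theorem linear [Finite Q] (h : ET G t) {k : ℕ} (hQ : Nat.card Q = 2 ^ k)
    (gen : G = Subgroup.closure {g | ∃ p q, g = t p q})
    (prim : ∀ r : Q → Q → Prop, Equivalence r → (∀ g ∈ G, ∀ a b, r a b → r (g a) (g b)) →
      (∀ a b, r a b → a = b) ∨ (∀ a b, r a b))
    {V : Subgroup (Perm Q)} (hV : V ≠ ⊥) (hVG : V ≤ G) (hVab : ∀ v ∈ V, ∀ w ∈ V, v * w = w * v)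
    (hVn : ∀ g ∈ G, ∀ v ∈ V, g * v * g⁻¹ ∈ V) (p q r s : Q) :
    t p q * t r s = t r s * t p q := by
  have _ := hQ
  have hAE := h.toAE gen prim p
  have hass : ALoop.Assoc (t p) := hAE.affine hVG hVn hV hVab
  have hmul : ∀ x y, t p (t p x y) = t p x * t p y := by
    intro x y
    ext z
    exact hass x y z
  have hcom : ∀ x y, t p x * t p y = t p y * t p x := by
    intro x y
    rw [← hmul, ← hmul, h.comm p x y]
  have hb : ∀ a b, ∃ x, t a b = t p x := by
    intro a b
    refine ⟨(t p a)⁻¹ b, ?_⟩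
    rw [h.t_eq_base p a b, hcom, mul_assoc, mul_inv_cancel, mul_one]
  obtain ⟨x, hx⟩ := hb r s
  rw [hx]
  exact hcom q x

end ET
end ETern
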