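import Pool.Agent.H76.ET.Def

/-!
All statements of case E2 (with sorry; NOT imported by any result).
-/

set_option autoImplicit false
namespace ETern
open Equiv
variable {Q : Type*} {G : Subgroup (Perm Q)} {t : Q → Q → Perm Q}
namespace ET

/-! ### Bas.lean (helper76) -/

/-- GP: an element of `G` which preserves `{p, q}` commutes with `t p q` -/
theorem gp (h : ET G t) {g : Perm Q} (hg : g ∈ G) {p q : Q}
    (hpq : (g p = p ∧ g q = q) ∨ (g p = q ∧ g q = p)) : g * t p q = t p q * g := by sorry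

/-- `u_pqr` is in `G`, an involution or 1, totally symmetric, equivariant -/
theorem uu_all (h : ET G t) (p q r : Q) :
    uu t p q r ∈ G ∧ uu t p q r * uu t p q r = 1 ∧ uu t p q r = uu t q p r ∧
    uu t p q r = uu t p r q ∧ ∀ g ∈ G, g * uu t p q r * g⁻¹ = uu t (g p) (g q) (g r) := by sorry

/-- apex rule: `t_(p, f(p,q,r)) = u_pqr t_qr` -/
theorem apex (h : ET G t) (p q r : Q) : t p (t p q r) = uu t p q r * t q r := by sorry

/-- apex rule: `t_(r, f(p,q,r)) = u_pqr t_pq` -/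
theorem apex' (h : ET G t) (p q r : Q) : t r (t p q r) = uu t p q r * t p q := by sorry

/-- `t_pq t_pr t_pq⁻¹ = u_pqr t_pr` -/
theorem conj_t (h : ET G t) (p q r : Q) :
    t p q * t p r * (t p q)⁻¹ = uu t p q r * t p r := by sorry

/-- `u_pqr` fixes `f(p,q,r)` and swaps `r` and `t_pq (t_pq r)` -/
theorem uu_pts (h : ET G t) (p q r : Q) :
    uu t p q r (t p q r) = t p q r ∧ uu t p q r r = t p q (t p q r) ∧
    uu t p q r (t p q (t p q r)) = r := by sorry

/-! ### One.lean (helper76) : (1) -/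

/-- (1): `u_pqr` commutes with `t_pq u_pqr t_pq⁻¹` and with `t_pq^2 u_pqr t_pq^-2` -/
theorem one (h : ET G t) (p q r : Q) :
    uu t p q r * un t p q r 1 = un t p q r 1 * uu t p q r ∧
    uu t p q r * un t p q r 2 = un t p q r 2 * uu t p q r := by sorry

/-! ### Chn.lean : (2) -/

/-- (2): all `u_i` commute -/
theorem chain_comm (h : ET G t) (p q r : Q) (i j : ℕ) :
    un t p q r i * un t p q r j = un t p q r j * un t p q r i := by sorry

/-- (2): `t(r_0, r_n) = u_0 ... u_(n-1) C` for `n` odd -/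
theorem chain_t (h : ET G t) (p q r : Q) {n : ℕ} (hn : Odd n) :
    t r (ch t p q r n) = pr t p q r n * t p q := by sorry

/-! ### Lbb.lean (helper76): Lemma B -/

/-- Lemma B: `t_ab` inverts no element `≠ 1` of odd order with a fixed point -/
theorem lemmaB (h : ET G t) {a b e : Q} {β : Perm Q} (hβ : β ∈ G) {n : ℕ} (hn : Odd n)
    (hβn : β ^ n = 1) (hinv : t a b * β * (t a b)⁻¹ = β⁻¹) (he : β e = e) : β = 1 := by sorry

/-! ### Thr.lean : (3) -/

/-- (3): `z = A^(2k)`, `A = t_ex`, `z^2 = 1`, `g e = e`, `z' = g z g⁻¹`: `(z z')^4 = 1` -/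
theorem zz_four (h : ET G t) {e x : Q} {g : Perm Q} (hg : g ∈ G) (hge : g e = e) {k : ℕ}
    (hz : ((t e x) ^ (2 * k)) ^ 2 = 1) :
    ((t e x) ^ (2 * k) * (g * (t e x) ^ (2 * k) * g⁻¹)) ^ 4 = 1 := by sorry

/-! ### Fiv.lean : (5) -/

/-- (5): `T = t_ab`, `T^(2m) = 1`, `m` odd, `i = T^m`: `i` inverts no element `≠ 1` of odd order
with a fixed point -/
theorem inv_one (h : ET G t) {a b e : Q} {m : ℕ} (hm : Odd m) (hT : (t a b) ^ (2 * m) = 1)
    {β : Perm Q} (hβ : β ∈ G) {n : ℕ} (hn : Odd n) (hβn : β ^ n = 1)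
    (hinv : (t a b) ^ m * β * ((t a b) ^ m)⁻¹ = β⁻¹) (he : β e = e) : β = 1 := by sorry

/-! ### Grp.lean : group theory with Baer-Suzuki -/

/-- (3) end: if 4 divides the order of `t_ex` then the stabiliser of `e` has a normal 2-subgroup `≠ 1` -/
theorem four_stab [Finite Q] (h : ET G t) {e x : Q} (h4 : 4 ∣ orderOf (t e x)) :
    ∃ U : Subgroup (Perm Q), U ≠ ⊥ ∧ (∀ v ∈ U, v ∈ G ∧ v e = e) ∧ IsPGroup 2 U ∧
      ∀ g ∈ G, g e = e → ∀ v ∈ U, g * v * g⁻¹ ∈ U := by sorry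

/-- (5) end: if `|Q| = 2^k` and 4 does not divide the order of `t_ab`, `a ≠ b`, then `G` has a normal
2-subgroup `≠ 1` -/
theorem normal_two [Finite Q] (h : ET G t) {k : ℕ} (hQ : Nat.card Q = 2 ^ k) {a b : Q}
    (hab : a ≠ b) (h4 : ¬ 4 ∣ orderOf (t a b)) :
    ∃ U : Subgroup (Perm Q), U ≠ ⊥ ∧ U ≤ G ∧ IsPGroup 2 U ∧
      ∀ g ∈ G, ∀ v ∈ U, g * v * g⁻¹ ∈ U := by sorry

/-! ### Lin.lean : the linear case -/

/-- the linear case (helper24 6743, helper3 6751): if `G` is generated by the `t p q`, is primitive and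
has an abelian normal subgroup `≠ 1` then `Q` has at most two elements or all `t p q` commute -/
theorem linear [Finite Q] (h : ET G t) {k : ℕ} (hQ : Nat.card Q = 2 ^ k)
    (gen : G = Subgroup.closure {g | ∃ p q, g = t p q})
    (prim : ∀ r : Q → Q → Prop, Equivalence r → (∀ g ∈ G, ∀ a b, r a b → r (g a) (g b)) →
      (∀ a b, r a b → a = b) ∨ (∀ a b, r a b))
    {V : Subgroup (Perm Q)} (hV : V ≠ ⊥) (hVG : V ≤ G) (hVab : ∀ v ∈ V, ∀ w ∈ V, v * w = w * v)
    (hVn : ∀ g ∈ G, ∀ v ∈ V, g * v * g⁻¹ ∈ V) (p q r s : Q) :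
    t p q * t r s = t r s * t p q := by sorry

/-! ### Fin.lean : the end -/

/-- THE THEOREM: `|Q| = 2^k`, `G` generated by the `t p q` and primitive: all `t p q` commute -/
theorem final [Finite Q] (h : ET G t) {k : ℕ} (hQ : Nat.card Q = 2 ^ k)
    (gen : G = Subgroup.closure {g | ∃ p q, g = t p q})
    (prim : ∀ r : Q → Q → Prop, Equivalence r → (∀ g ∈ G, ∀ a b, r a b → r (g a) (g b)) →
      (∀ a b, r a b → a = b) ∨ (∀ a b, r a b)) (p q r s : Q) :
    t p q * t r s = t r s * t p q := by sorry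

end ET
end ETern
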